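import Pool.Agent.Lib_helper23.BG.Defs

/-!
# Definitions for the pair constant below 4 (four bins)
-/

set_option autoImplicit false

namespace Pool.Agent.BG4

open Finset Filter Pool.Agent.BG
open scoped Classical

variable {M k : ℕ}

/-! ### vectors -/

/-- `∑ (p - 1)^(-3/2)` -/
noncomputable def Sg32 (P : Fin M → ℕ) : ℝ := ∑ j, al P j * Real.sqrt (al P j)

/-- all values of `y` lie in `G` -/
def Vals (G : Finset (Fin k)) (y : Vec M k) : Prop := ∀ j i, y j = some i → i ∈ G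

/-- erase the values in `G` -/
noncomputable def er (G : Finset (Fin k)) (x : Vec M k) : Vec M k :=
  fun j => if ∃ i ∈ G, x j = some i then none else x j

/-- keep only the values in `G` -/
noncomputable def onn (G : Finset (Fin k)) (x : Vec M k) : Vec M k :=
  fun j => if ∃ i ∈ G, x j = some i then x j else none

/-- disjoint supports -/
def Dis (x y : Vec M k) : Prop := ∀ j, x j = none ∨ y j = none

/-- union -/
noncomputable def join (x y : Vec M k) : Vec M k := fun j => if x j = none then y j else x j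

/-- `∏ γ_j` over the support -/
noncomputable def gw (γ : Fin M → ℝ) (y : Vec M k) : ℝ := ∏ j, om (γ j) (y j)

/-- the sieve weights with dual variable `ω` -/
noncomputable def lam (γ : Fin M → ℝ) (ω : Vec M k → ℝ) (x : Vec M k) : ℝ :=
  (-1) ^ sc x * tr γ ω x

/-- product weights: `c0` on the forms outside `G`, `lm` on the forms in `G`; restricted to the
vectors vanishing on `Q` -/
noncomputable def ext (G : Finset (Fin k)) (Q : Finset (Fin M)) (c0 lm : Vec M k → ℝ)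
    (x : Vec M k) : ℝ :=
  if ∀ j ∈ Q, x j = none then c0 (er G x) * lm (onn G x) else 0

/-- `∑ c_x` over the `x` satisfied by `n` -/
noncomputable def Phi (P : Fin M → ℕ) (h : Fin k → ℕ) (c : Vec M k → ℝ) (n : ℕ) : ℝ :=
  ∑ x, if Sat P h n x then c x else 0

/-- `∑ lm_x` over the `x` satisfied by `n` with values in `G` -/
noncomputable def Lam (P : Fin M → ℕ) (h : Fin k → ℕ) (G : Finset (Fin k)) (lm : Vec M k → ℝ)
    (n : ℕ) : ℝ :=
  ∑ x, if Sat P h n x ∧ Vals G x then lm x else 0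

/-- a function of the product of the primes, on the vectors with values in `G` -/
noncomputable def omf (P : Fin M → ℕ) (G : Finset (Fin k)) (f : ℕ → ℝ) (y : Vec M k) : ℝ :=
  if Vals G y then f (dv P y) else 0

/-- the total mass of `omf` -/
noncomputable def GS (P : Fin M → ℕ) (G : Finset (Fin k)) (γ : Fin M → ℝ) (f : ℕ → ℝ) : ℝ :=
  ∑ y : Vec M k, omf P G f y * gw γ y

/-- cut-off -/
noncomputable def f1 (R : ℝ) (d : ℕ) : ℝ := if (d : ℝ) ≤ R then 1 else 0

/-- cut-off, and all primes below `z` -/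
noncomputable def fz (z R : ℝ) (d : ℕ) : ℝ :=
  if (d : ℝ) ≤ R ∧ ∀ p : ℕ, p.Prime → p ∣ d → (p : ℝ) < z then 1 else 0

/-- the Selberg weights with values in `G` and dual cut-off `f` -/
noncomputable def sel (P : Fin M → ℕ) (G : Finset (Fin k)) (γ : Fin M → ℝ) (f : ℕ → ℝ) :
    Vec M k → ℝ :=
  lam γ (omf P G (fun d => f d / GS P G γ f))

/-- conditioning the coefficients on `P j₀ ∣ n + h b` -/
noncomputable def red (b : Fin k) (j₀ : Fin M) (c : Vec M k → ℝ) (x : Vec M k) : ℝ :=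
  if x j₀ = none then c x + c (Function.update x j₀ (some b)) else 0

/-- the same operation on the dual variables -/
noncomputable def ored (γ : Fin M → ℝ) (b : Fin k) (j₀ : Fin M) (ω : Vec M k → ℝ)
    (y : Vec M k) : ℝ :=
  if y j₀ = none then ω y - (1 - γ j₀) * ω (Function.update y j₀ (some b)) else 0

/-! ### parameters -/

/-- the weight function -/
noncomputable def gg4 (ζ : ℝ) (J k N : ℕ) : ℕ → ℝ :=
  gst J (ζ / (5 * k * (J + 1)) * Real.log N)

/-- the coefficients of the weights -/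
noncomputable def c4 (P : Fin M → ℕ) (ζ : ℝ) (J N : ℕ) : Vec M k → ℝ :=
  cv P (gg4 ζ J k N) ((N : ℝ) ^ ζ)

/-- `∑ g` -/
noncomputable def G14 (P : Fin M → ℕ) (ζ : ℝ) (J k N : ℕ) : ℝ := Gsum P (gg4 ζ J k N)

/-- `∑ g²` -/
noncomputable def G24 (P : Fin M → ℕ) (ζ : ℝ) (J k N : ℕ) : ℝ :=
  Gsum P (fun a => gg4 ζ J k N a ^ 2)

/-- `G1⁴ G2^(k-2)` -/
noncomputable def GG4 (P : Fin M → ℕ) (ζ : ℝ) (J k N : ℕ) : ℝ :=
  G14 P ζ J k N ^ 4 * G24 P ζ J k N ^ (k - 2)

/-- the unit in which the mass of the pairs is measured -/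
noncomputable def Yc (P : Fin M → ℕ) (ζ : ℝ) (J k W N : ℕ) : ℝ :=
  (N * W / (W.totient * Real.log N) ^ 2) * GG4 P ζ J k N

/-- the level of distribution `N^(1/2-ζ)`, at the scale `N` -/
def Good4 (ζ : ℝ) (k N : ℕ) : Prop := ∀ u : ℕ, u ≤ 3 * N →
  ∑ q ∈ sqf ((N : ℝ) ^ (1 / 2 - ζ)),
    ((8 * (k + 1) ^ 2 : ℕ) : ℝ) ^ q.primeFactors.card * Emax u q ≤
    N / Real.log N ^ (4 * k + 30)

/-- `Φ₀`: the coefficients with the forms `a`, `b` removed -/
noncomputable def Ph0 (P : Fin M → ℕ) (h : Fin k → ℕ) (ζ : ℝ) (J N : ℕ) (a b : Fin k)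
    (n : ℕ) : ℝ :=
  Phi P h (restr {a, b} (c4 P ζ J N)) n

/-! ### numbers -/

/-- primes in `(N^0.165, N^0.166]` -/
noncomputable def IP (N : ℕ) : Finset ℕ :=
  (Icc 1 N).filter (fun p => p.Prime ∧ (N : ℝ) ^ (33 / 200 : ℝ) < p ∧
    (p : ℝ) ≤ (N : ℝ) ^ (83 / 500 : ℝ))

/-- no prime factor below `N^0.085` -/
def Rough (N m : ℕ) : Prop := ∀ p : ℕ, p.Prime → p ∣ m → (N : ℝ) ^ (17 / 200 : ℝ) ≤ p

/-- the squarefree rough numbers in `[N^0.834, 3 N^0.835]` -/
noncomputable def Qset (N : ℕ) : Finset ℕ :=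
  (Icc 1 N).filter (fun q => Squarefree q ∧ Rough N q ∧ (N : ℝ) ^ (417 / 500 : ℝ) ≤ q ∧
    (q : ℝ) ≤ 3 * (N : ℝ) ^ (167 / 200 : ℝ))

/-- products of four primes below `N^(1/4)` -/
noncomputable def T5set (N : ℕ) : Finset ℕ :=
  (Qset N).filter (fun q => q.primeFactors.card = 4 ∧
    ∀ p ∈ q.primeFactors, (p : ℝ) < (N : ℝ) ^ (1 / 4 : ℝ))

/-- the value of the Selberg weight at `p q`, `p` in `IP N` and `q` in `Qset N`, `p q ≈ N` -/
noncomputable def Fst (ζ : ℝ) (N q : ℕ) : ℝ :=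
  (1 - Real.log q / Real.log N) / (1 / 4 - 2 * ζ)
    - ∑ p ∈ q.primeFactors, max 0 (1 - Real.log p / ((1 / 4 - 2 * ζ) * Real.log N))
    + ∑ e ∈ q.primeFactors.powersetCard 2,
        max 0 (1 - Real.log ((∏ p ∈ e, p : ℕ) : ℝ) / ((1 / 4 - 2 * ζ) * Real.log N))

end Pool.Agent.BG4
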